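import Pool.Agent.Helper8_HK.Stmt1

/-! HAT: `T_m` commutes with the Atkin-Lehner involution when `m` is prime to `n`. -/

namespace Pool.Agent.HK.H71

open Polynomial

theorem hecke_eq {F : Type} [Field F] (n m : F[X]) {R : Type} [AddCommMonoid R]
    (φ : GLK F → R) (g : GLK F) :
    hecke n m φ g = ∑ᶠ x : HIdx n m, φ (hmat (x : F[X] × F[X] × F[X]) * g) := by
  rw [hecke, ← finsum_set_coe_eq_finsum_mem]

theorem atk_eq {F : Type} [Field F] (n : F[X]) {R : Type}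
    (φ : GLK F → R) (g : GLK F) : atk n φ g = φ (Wmat n * g) := rfl

theorem hat (hHPM : HPMStmt) : HATStmt := by
  intro F _ _ R _ n m hn hm hcop φ hφ hinv
  obtain ⟨e, he⟩ := (hHPM F n m hn hm).2.2 hcop
  funext g
  rw [hecke_eq, atk_eq, hecke_eq]
  have h1 : (∑ᶠ x : HIdx n m, φ (hmat (x : F[X] × F[X] × F[X]) * (Wmat n * g))) =
      ∑ᶠ x : HIdx n m, φ (hmat ((e x : HIdx n m) : F[X] × F[X] × F[X]) * (Wmat n * g)) :=
    (finsum_comp_equiv e (f := fun x : HIdx n m =>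
      φ (hmat (x : F[X] × F[X] × F[X]) * (Wmat n * g)))).symm
  rw [h1]
  refine finsum_congr fun x => ?_
  obtain ⟨δ, hδ, h⟩ := he x
  rw [atk_eq, ← mul_assoc, h, mul_assoc, mul_assoc, hinv δ hδ]

end Pool.Agent.HK.H71
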