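import Pool.Agent.Helper8_HK.Stmt1

/-! HRI: Hecke operators and the value at the cusp infinity. -/

namespace Pool.Agent.HK.H71

open Polynomial

theorem sum_fiber {A B R : Type} [AddGroup A] [Fintype A] [AddGroup B] [Fintype B]
    [AddCommGroup R] (f : A →+ B) (hf : Function.Surjective f) (G : B → R)
    (hG : ∑ b, G b = 0) : ∑ a, G (f a) = 0 := by
  classical
  rw [← Finset.sum_fiberwise Finset.univ f (fun a => G (f a))]
  have h1 : ∀ b : B, (∑ a ∈ Finset.univ.filter (fun a => f a = b), G (f a)) =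
      (Finset.univ.filter (fun a => f a = 0)).card • G b := by
    intro b
    rw [Finset.sum_congr rfl (fun a ha => by rw [(Finset.mem_filter.1 ha).2]),
      Finset.sum_const]
    congr 1
    exact AddMonoidHom.card_fiber_eq_of_mem_range f (hf b) (hf 0)
  rw [Finset.sum_congr rfl (fun b _ => h1 b), ← Finset.smul_sum, hG, smul_zero]

section

variable {F : Type} [Field F]

theorem emb_monic_ne (hLAU : LAUStmt) {a : F[X]} (ha : a.Monic) : emb F a ≠ 0 := by
  obtain ⟨-, -, -, -, -, L6, -, -, -, -, -, -, L13⟩ := hLAU F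
  obtain ⟨u, h1, -, h3⟩ := L13 a ha
  rw [h1]
  refine mul_ne_zero (zpow_ne_zero _ L6) ?_
  rintro rfl
  simp at h3

/-- dividing by a monic polynomial of degree `e` raises the order by `e`. -/
theorem inO_div (hLAU : LAUStmt) {d : F[X]} (hd : d.Monic) {k : ℤ} {x : Kinf F} (hx : InO k x) :
    InO (k + d.natDegree) (x / emb F d) := by
  obtain ⟨-, -, -, -, -, L6, L7, L8, -, L10, -, -, L13⟩ := hLAU F
  obtain ⟨u, h1, h2, h3⟩ := L13 d hd
  have h4 := L10 u h2 (by rw [h3]; exact one_ne_zero)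
  have e1 : x / emb F d = (unif F) ^ (d.natDegree : ℤ) * (x * u⁻¹) := by
    rw [h1, div_eq_mul_inv, mul_inv, zpow_neg, inv_inv]; ring
  rw [e1]
  have h5 := (L8 k 0 x u⁻¹ hx h4.1).1
  intro i hi
  rw [L7]
  exact h5 _ (by omega)

theorem coeff_emb (hLAU : LAUStmt) (a : F[X]) (i : ℤ) (hi : i ≤ 0) :
    HahnSeries.coeff (emb F a) i = a.coeff (-i).toNat := by
  obtain ⟨L1, -⟩ := hLAU F
  have := L1 a (-i).toNat
  rw [← this]
  congr 1
  omega

/-- `b/d` has positive order when `deg b < deg d`. -/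
theorem inO_frac (hLAU : LAUStmt) {b d : F[X]} (hd : d.Monic) (hb : b.degree < d.degree) :
    InO 1 (emb F b / emb F d) := by
  have h1 : InO (1 - (d.natDegree : ℤ)) (emb F b) := by
    intro i hi
    rcases le_or_gt i 0 with h | h
    · rw [coeff_emb hLAU b i h]
      apply Polynomial.coeff_eq_zero_of_degree_lt
      rw [Polynomial.degree_eq_natDegree hd.ne_zero] at hb
      refine lt_of_lt_of_le hb ?_
      exact_mod_cast (by omega : d.natDegree ≤ (-i).toNat)
    · obtain ⟨-, L2, -⟩ := hLAU F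
      exact L2 b i h
  have h2 := inO_div hLAU hd h1
  have e : (1 - (d.natDegree : ℤ)) + d.natDegree = 1 := by ring
  rwa [e] at h2

/-- the digits. -/
theorem coeff_digits (hLAU : LAUStmt) (N : ℕ) (s : Fin N → F) (i : ℤ) :
    HahnSeries.coeff (∑ j : Fin N, cst F (s j) * (unif F) ^ ((1 : ℤ) + ((j : ℕ) : ℤ))) i =
      if h : 1 ≤ i ∧ i < 1 + N then s ⟨(i - 1).toNat, by omega⟩ else 0 := by
  classical
  obtain ⟨-, -, L3, -, -, L6, L7, -⟩ := hLAU F
  rw [HahnSeries.coeff_sum]
  have h1 : ∀ j : Fin N, HahnSeries.coeff (cst F (s j) * (unif F) ^ ((1 : ℤ) + ((j : ℕ) : ℤ))) i =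
      if i = 1 + ((j : ℕ) : ℤ) then s j else 0 := by
    intro j
    have h2 := L7 ((1 : ℤ) + ((j : ℕ) : ℤ)) i 1
    rw [mul_one] at h2
    rw [L3, h2, HahnSeries.coeff_one]
    by_cases h : i = 1 + ((j : ℕ) : ℤ)
    · rw [if_pos (by omega), if_pos h, mul_one]
    · rw [if_neg (by omega), if_neg h, mul_zero]
  rw [Finset.sum_congr rfl (fun j _ => h1 j)]
  split_ifs with h
  · rw [Finset.sum_eq_single (⟨(i - 1).toNat, by omega⟩ : Fin N)]
    · rw [if_pos]
      simp only
      omega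
    · intro j _ hj
      rw [if_neg]
      intro h3
      apply hj
      apply Fin.ext
      simp only
      omega
    · intro h3
      exact absurd (Finset.mem_univ _) h3
  · apply Finset.sum_eq_zero
    intro j _
    rw [if_neg]
    intro h3
    apply h
    have := j.isLt
    omega

/-- The digit map `b ↦` first `N` digits of `b/d`. -/
noncomputable def digMap (d : F[X]) (N : ℕ) : degreeLT F d.natDegree →+ (Fin N → F) :=
  AddMonoidHom.mk' (fun b i => HahnSeries.coeff (emb F (b : F[X]) / emb F d) (1 + ((i : ℕ) : ℤ)))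
    (by
      intro b c
      funext i
      rw [Submodule.coe_add, map_add, add_div, Pi.add_apply, HahnSeries.coeff_add])

theorem digMap_apply (d : F[X]) (N : ℕ) (b : degreeLT F d.natDegree) (i : Fin N) :
    digMap d N b i = HahnSeries.coeff (emb F (b : F[X]) / emb F d) (1 + ((i : ℕ) : ℤ)) := rfl

theorem inO_sub {k : ℤ} {x y : Kinf F} (hx : InO k x) (hy : InO k y) : InO k (x - y) := by
  intro i hi
  rw [HahnSeries.coeff_sub, hx i hi, hy i hi, sub_zero]

theorem inO_mono {k l : ℤ} (h : l ≤ k) {x : Kinf F} (hx : InO k x) : InO l x :=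
  fun i hi => hx i (by omega)

theorem inO_digits (hLAU : LAUStmt) (N : ℕ) (s : Fin N → F) :
    InO 1 (∑ j : Fin N, cst F (s j) * (unif F) ^ ((1 : ℤ) + ((j : ℕ) : ℤ))) := by
  intro i hi
  rw [coeff_digits hLAU, dif_neg]
  omega

theorem digMap_surj (hLAU : LAUStmt) {d : F[X]} (hd : d.Monic) {N : ℕ} (hN : N ≤ d.natDegree) :
    Function.Surjective (digMap d N) := by
  intro s
  set u : Kinf F := ∑ j : Fin N, cst F (s j) * (unif F) ^ ((1 : ℤ) + ((j : ℕ) : ℤ)) with hu
  have hd0 := emb_monic_ne hLAU hd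
  obtain ⟨L1, L2, L3, L4, L5, L6, L7, L8, L9, L10, L11, L12, L13⟩ := hLAU F
  have hLAU' : LAUStmt := hLAU
  obtain ⟨b, hb⟩ := L11 (emb F d * u)
  have hdO : InO (-(d.natDegree : ℤ)) (emb F d) := by
    intro i hi
    rw [coeff_emb hLAU d i (by omega)]
    apply Polynomial.coeff_eq_zero_of_natDegree_lt
    omega
  have hx := (L8 _ _ _ _ hdO (inO_digits hLAU N s)).1
  rw [← hu] at hx
  have hbdeg : b.degree < (d.natDegree : WithBot ℕ) := by
    rw [Polynomial.degree_lt_iff_coeff_zero]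
    intro j hj
    rw [← L1 b j]
    have h1 := hx (-(j : ℤ)) (by omega)
    have h2 := hb (-(j : ℤ)) (by omega)
    rw [HahnSeries.coeff_sub, h1, zero_sub, neg_eq_zero] at h2
    exact h2
  refine ⟨⟨b, mem_degreeLT.2 hbdeg⟩, ?_⟩
  funext i
  rw [digMap_apply]
  have h3 := inO_div hLAU hd hb
  have h4 : emb F b / emb F d = u - (emb F d * u - emb F b) / emb F d := by
    field_simp
    ring
  have h5 := h3 (1 + ((i : ℕ) : ℤ)) (by have := i.isLt; omega)
  simp only
  rw [h4, HahnSeries.coeff_sub, h5, sub_zero, hu, coeff_digits hLAU, dif_pos]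
  · congr 1
    apply Fin.ext
    simp
  · have := i.isLt
    omega

theorem inner_sum (hLAU : LAUStmt) [Fintype F] {R : Type} [AddCommGroup R] {d : F[X]}
    (hd : d.Monic) {N : ℕ} (hN : N ≤ d.natDegree) [Fintype (degreeLT F d.natDegree)]
    (G : Kinf F → R) (hG1 : ∀ u v : Kinf F, InO (1 + N) (u - v) → G u = G v)
    (hG2 : ∑ s : Fin N → F, G (∑ j : Fin N, cst F (s j) * (unif F) ^ ((1 : ℤ) + ((j : ℕ) : ℤ))) = 0) :
    ∑ b : degreeLT F d.natDegree, G (emb F (b : F[X]) / emb F d) = 0 := by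
  classical
  rw [← sum_fiber (digMap d N) (digMap_surj hLAU hd hN)
    (fun s => G (∑ j : Fin N, cst F (s j) * (unif F) ^ ((1 : ℤ) + ((j : ℕ) : ℤ)))) hG2]
  refine Finset.sum_congr rfl fun b _ => ?_
  apply hG1
  intro i hi
  rw [HahnSeries.coeff_sub, coeff_digits hLAU]
  split_ifs with h
  · rw [digMap_apply, sub_eq_zero]
    congr 1
    simp only
    omega
  · have hb : (b : F[X]).degree < d.degree := by
      rw [Polynomial.degree_eq_natDegree hd.ne_zero]
      exact mem_degreeLT.1 b.2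
    rw [inO_frac hLAU hd hb i (by omega), sub_zero]

end

theorem hri (hVAL : VALStmt) (hLAU : LAUStmt) (hMTX : MTXStmt) (hHPM : HPMStmt) : HRIStmt := by
  classical
  intro F _ _ R _ n m hn hm φ hφ hinv hv
  obtain ⟨V1, V2, V3, V4, V5, V6, V7⟩ := hVAL F R φ hφ
  obtain ⟨W1, W2, W3, W4⟩ := V7 n hinv
  have hfin := (hHPM F n m hn hm).1
  obtain ⟨M1, M2, M3, M4, M5, -⟩ := hMTX F
  obtain ⟨L1, L2, L3, L4, L5, L6, L7, L8, L9, L10, L11, L12, L13⟩ := hLAU F
  -- value of one term
  have term : ∀ x ∈ HIdx n m, φ (hmat x * mat ((unif F) ^ (1 : ℤ)) 0 0 1) =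
      val φ (1 + (x.2.2.natDegree : ℤ) - x.1.natDegree) (emb F x.2.1 / emb F x.2.2) := by
    rintro ⟨a, b, d⟩ ⟨ha, hd, -, -, -⟩
    simp only at ha hd ⊢
    have ha0 := emb_monic_ne hLAU ha
    have hd0 := emb_monic_ne hLAU hd
    have hp : (unif F) ^ (1 : ℤ) ≠ 0 := zpow_ne_zero _ L6
    rw [hmat]
    simp only
    rw [M3 _ _ _ _ _ _ _ _ (by simpa using ⟨ha0, hd0⟩) (by simpa using L6)]
    obtain ⟨ua, a1, a2, a3⟩ := L13 a ha
    obtain ⟨ud, d1, d2, d3⟩ := L13 d hd
    have d4 := L10 ud d2 (by rw [d3]; exact one_ne_zero)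
    have h1 := V2 1 (emb F a * (unif F) ^ (1 : ℤ)) (emb F b) (emb F d)
      (1 + (d.natDegree : ℤ) - a.natDegree) (ua * ud⁻¹) hd0 (by
        rw [a1, d1, div_eq_mul_inv, mul_inv, zpow_sub₀ L6, zpow_add₀ L6, zpow_neg, zpow_neg,
          inv_inv]
        ring) (by simpa using (L8 0 0 _ _ a2 d4.1).1) (by
        have := (L8 0 0 _ _ a2 d4.1).2
        rw [add_zero] at this
        rw [this, a3, d4.2, d3]
        simp)
    rw [one_mul, one_mul] at h1
    rw [val, ← h1]
    congr 2 <;> ring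
  rw [val, hecke, finsum_mem_eq_finite_toFinset_sum _ hfin]
  rw [Finset.sum_congr rfl (fun x hx => term x (hfin.mem_toFinset.1 hx))]
  rw [← Finset.sum_fiberwise_of_maps_to (s := hfin.toFinset)
    (t := hfin.toFinset.image (fun x => (x.1, x.2.2))) (g := fun x => (x.1, x.2.2))
    (fun x hx => Finset.mem_image_of_mem _ hx)]
  apply Finset.sum_eq_zero
  rintro ⟨a, d⟩ hy
  obtain ⟨x0, hx0, hx1⟩ := Finset.mem_image.1 hy
  obtain ⟨ha, hd, had, hcop, -⟩ := hfin.mem_toFinset.1 hx0
  obtain ⟨ea, ed⟩ := Prod.mk.inj hx1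
  rw [ea] at ha had hcop
  rw [ed] at hd had
  rcases le_or_gt d.natDegree a.natDegree with hk | hk
  · apply Finset.sum_eq_zero
    intro x hx
    obtain ⟨hx2, hx3⟩ := Finset.mem_filter.1 hx
    obtain ⟨e1, e2⟩ := Prod.mk.inj hx3
    rw [e1, e2, W3 _ _ (by omega)]
    have h2 := W4 (a.natDegree - d.natDegree)
    rw [hv, smul_zero] at h2
    rw [← h2]
    congr 1
    omega
  · haveI : Finite (degreeLT F d.natDegree) :=
      Finite.of_equiv _ (degreeLTEquiv F d.natDegree).symm.toEquiv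
    letI : Fintype (degreeLT F d.natDegree) := Fintype.ofFinite _
    obtain ⟨N, hN⟩ : ∃ N : ℕ, d.natDegree = a.natDegree + N := ⟨d.natDegree - a.natDegree, by omega⟩
    have hN' : 1 + (d.natDegree : ℤ) - a.natDegree = 1 + N := by omega
    rw [← inner_sum hLAU (N := N) hd (by omega) (fun u => val φ (1 + N) u)
      (fun u v h => by simpa [val] using V1 1 (1 + N) u v h)
      (by
        have h3 := V4 1 1 N 0
        simp only [one_mul, zero_add] at h3
        rw [← hv]
        simp only [val]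
        exact h3)]
    symm
    refine Finset.sum_nbij (fun b => (a, (b : F[X]), d)) ?_ ?_ ?_ ?_
    · intro b _
      refine Finset.mem_filter.2 ⟨hfin.mem_toFinset.2 ⟨ha, hd, had, hcop, ?_⟩, rfl⟩
      simp only
      rw [Polynomial.degree_eq_natDegree hd.ne_zero]
      exact mem_degreeLT.1 b.2
    · intro b _ c _ hbc
      simpa using hbc
    · rintro ⟨a', b, d'⟩ hx
      obtain ⟨hx2, hx3⟩ := Finset.mem_filter.1 (Finset.mem_coe.1 hx)
      obtain ⟨e1, e2⟩ := Prod.mk.inj hx3
      simp only at e1 e2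
      subst e1 e2
      obtain ⟨-, -, -, -, hb⟩ := hfin.mem_toFinset.1 hx2
      simp only at hb
      rw [Polynomial.degree_eq_natDegree hd.ne_zero] at hb
      exact ⟨⟨b, mem_degreeLT.2 hb⟩, by simp, rfl⟩
    · intro b _
      simp only
      rw [hN']

end Pool.Agent.HK.H71
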