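import Pool.Agent.Helper8_HK.Stmt1

/-! HST: Hecke operators preserve the cochains vanishing at both cusps. -/

namespace Pool.Agent.HK.H71

open Polynomial

theorem hst (hHWD : HWDStmt) (hHRI : HRIStmt) (hHAT : HATStmt) (hHTN : HTNStmt)
    (hHMU : HMUStmt) (hATK : ATKStmt) : HSTStmt := by
  intro F _ _ R _ n m hn hirr hm φ hφ
  have hn0 : n ≠ 0 := hn.ne_zero
  induction' hd : m.natDegree using Nat.strong_induction_on with N ih generalizing m φ
  have hW := hHWD F R n m hn0 hm φ hφ.harm hφ.invt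
  refine ⟨hW.1, hW.2, hHRI F R n m hn0 hm φ hφ.harm hφ.invt hφ.rinf, ?_⟩
  by_cases hdvd : n ∣ m
  · obtain ⟨m1, rfl⟩ := hdvd
    have hm1 : m1.Monic := Polynomial.Monic.of_mul_monic_left hn hm
    have hdeg : (n * m1).natDegree = n.natDegree + m1.natDegree := hn.natDegree_mul hm1
    have hnd : 0 < n.natDegree := hirr.natDegree_pos
    have hφ' : Cusp n (hecke n m1 φ) := ih m1.natDegree (by omega) m1 hm1 φ hφ rfl
    have h1 := (hHMU F R n hn φ hφ.harm hφ.invt).2 hirr m1 hm1
    have h2 := hHTN F R n hn hirr _ hφ'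
    have h3 := (hATK F R n hn0 _ hφ'.harm hφ'.invt).2.2
    have h4 : hecke n n (hecke n m1 φ) = fun g => - atk n (hecke n m1 φ) g := funext h2
    rw [h1, h4]
    have h5 : val (atk n (fun g => - atk n (hecke n m1 φ) g)) 1 0
        = - val (atk n (atk n (hecke n m1 φ))) 1 0 := rfl
    rw [h5, h3, hφ'.rinf, neg_zero]
  · have hcop : IsCoprime m n := ((Irreducible.coprime_iff_not_dvd hirr).2 hdvd).symm
    have hA := hATK F R n hn0 φ hφ.harm hφ.invt
    rw [← hHAT F R n m hn0 hm hcop φ hφ.harm hφ.invt]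
    exact hHRI F R n m hn0 hm _ hA.1 hA.2.1 hφ.rzero

end Pool.Agent.HK.H71
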